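import Mathlib

/-! An MXS allocation that is not epistemic EF1 (three agents, identical additive valuations). -/

namespace Pool.Agent.Results.MP_a41a76_co.NotEEF1

open Finset

variable {n m : ℕ}

/-- The bundle of agent `i` in the allocation `A` (item `g` goes to agent `A g`). -/
def bundle (A : Fin m → Fin n) (i : Fin n) : Finset (Fin m) := univ.filter fun g => A g = i

/-- The additive value of a bundle. -/
def val (w : Fin m → ℝ) (S : Finset (Fin m)) : ℝ := ∑ g ∈ S, w g

def EF1 (w : Fin m → ℝ) (i : Fin n) (A : Fin m → Fin n) : Prop :=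
  ∀ j, j ≠ i → val w (bundle A j) ≤ val w (bundle A i) ∨
    ∃ g ∈ bundle A j, val w ((bundle A j).erase g) ≤ val w (bundle A i)

def EEF1 (w : Fin m → ℝ) (i : Fin n) (A : Fin m → Fin n) : Prop :=
  ∃ B : Fin m → Fin n, bundle B i = bundle A i ∧ EF1 w i B

def EFX (w : Fin m → ℝ) (i : Fin n) (B : Fin m → Fin n) : Prop :=
  ∀ j, j ≠ i → ∀ g ∈ bundle B j, 0 < w g → val w ((bundle B j).erase g) ≤ val w (bundle B i)

def MXS (w : Fin m → ℝ) (i : Fin n) (A : Fin m → Fin n) : Prop :=
  ∃ B : Fin m → Fin n, EFX w i B ∧ val w (bundle B i) ≤ val w (bundle A i)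

def w0 : Fin 12 → ℕ := ![1, 3, 3, 2, 2, 2, 2, 2, 2, 2, 2, 2]

def A0 : Fin 12 → Fin 3 := ![0, 0, 0, 1, 1, 1, 1, 1, 2, 2, 2, 2]

def B0 (i : Fin 3) : Fin 12 → Fin 3 :=
  ![i, i + 1, i + 2, i, i, i, i + 1, i + 1, i + 1, i + 2, i + 2, i + 2]

lemma val_cast (S : Finset (Fin 12)) :
    val (fun g => (w0 g : ℝ)) S = ((∑ g ∈ S, w0 g : ℕ) : ℝ) := by simp [val]

theorem result : ∃ (w : Fin 12 → ℝ) (A : Fin 12 → Fin 3), (∀ g, 0 < w g) ∧
    (∀ i, MXS w i A) ∧ ¬ EEF1 w 0 A := by
  refine ⟨fun g => w0 g, A0, fun g => Nat.cast_pos.2 (by revert g; decide), fun i => ⟨B0 i, ?_, ?_⟩, ?_⟩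
  · intro j hj g hg h
    clear h
    simp only [val_cast, Nat.cast_le]
    revert i j g
    decide +kernel
  · simp only [val_cast, Nat.cast_le]
    revert i
    decide +kernel
  · rintro ⟨B, hB, h⟩
    have h2 : ∀ j, j ≠ 0 → ∀ g ∈ bundle B j, w0 g = 2 := by
      intro j hj g hg
      have : g ∉ bundle A0 0 := by
        rw [← hB]
        simp only [bundle, mem_filter, mem_univ, true_and] at hg ⊢
        rw [hg]; exact hj
      revert g
      have : ∀ g, g ∉ bundle A0 0 → w0 g = 2 := by decide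
      exact fun g _ h => this g h
    have h4 : ∀ j, j ≠ 0 → (bundle B j).card ≤ 5 - 1 := by
      intro j hj
      have h7 : ∑ g ∈ bundle A0 0, w0 g = 7 := by decide
      have := h j hj
      simp only [val_cast, Nat.cast_le, hB, h7] at this
      rcases this with h | ⟨g, hg, h⟩
      · rw [sum_congr rfl (h2 j hj), sum_const, smul_eq_mul] at h
        omega
      · rw [sum_congr rfl fun x hx => h2 j hj x (mem_of_mem_erase hx), sum_const, smul_eq_mul,
          card_erase_of_mem hg] at h
        omega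
    have hc := card_eq_sum_card_fiberwise (f := B) (s := univ) (t := univ) (by simp)
    have h3 : (bundle B 0).card = 3 := by rw [hB]; decide
    have a1 := h4 1 (by decide)
    have a2 := h4 2 (by decide)
    rw [Fin.sum_univ_three] at hc
    simp only [bundle] at a1 a2 h3
    rw [card_univ, Fintype.card_fin] at hc
    omega

end Pool.Agent.Results.MP_a41a76_co.NotEEF1
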